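import Pool.Agent.helper37.L5.Spec

/-!
# Row `l5:NZV` (MP_baa4d7_al)
-/

set_option autoImplicit false

namespace Pool.Agent.L5

open Pool.Agent.helper58.DC Pool.Agent.DI Pool.Agent.GR Pool.Agent.OB Pool.Agent.DR Pool.Agent.FI Pool.Agent.FI3 Pool.Agent.FI4 Pool.Agent.FI4I Pool.Agent.LE

theorem NZV_cz_bot (G : Type) [Group G] : cz (⊥ : Subgroup G) = ⊤ := by
  rw [eq_top_iff]
  intro g _
  rw [Subgroup.mem_centralizer_iff]
  intro h hh
  rw [SetLike.mem_coe, Subgroup.mem_bot] at hh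
  rw [hh, one_mul, mul_one]

theorem NZV (hHTU : HTU_stmt) (hTRW : TRW_stmt) (hQID : QID_stmt) (hRR1 : RR1_stmt)
    (hTPR : Pool.Agent.FI.TPR_stmt) : NZV_stmt := by
  intro p M hS G _ _ D x θ χ hRt ψ hψB u hu
  have hcz : cz (⊥ : Subgroup G) = ⊤ := NZV_cz_bot G
  have hP : (⊥ : Subgroup G) ≤ D := bot_le
  obtain ⟨hT1, hT2, hT3, hT4, hT5⟩ := hTPR p M hS G
  have hψ : ψ ∈ Bl M (cz (⊥ : Subgroup G)) θ := by
    rw [hcz]
    refine ⟨hψB.1, ?_⟩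
    have h1 : SB M ⊤ ψ χ := (hT2 ψ χ).1 hψB.2
    have h2 : SB M ⊤ θ χ := (hT2 θ χ).1 hRt.ind
    exact h1.trans h2.symm
  obtain ⟨i, hi⟩ := hQID p M hS G D x θ χ hRt ⊥ hP
  obtain ⟨w, hwC, hwr, hHT⟩ := hHTU p M hS G D x θ χ hRt
  obtain ⟨j, hj1, hj2, hj3, hj4, hj5⟩ := hi.loc (Cz (cz ⊥) u) ⟨u, hu, rfl⟩
  have hCL : cz D ≤ cz (⊥ : Subgroup G) := Q1_C_le hP
  have hCK : cz D ≤ Cz (cz (⊥ : Subgroup G)) u := Q1_C_Cz hP hu
  have hDC : D ≤ cz D := le_cz_of_com hRt.com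
  have hDL : D ≤ cz (⊥ : Subgroup G) := Q1_D_le hRt hP
  have hinvC : Inv (cz D) i := fun s hs y =>
    hi.inv s (Subgroup.mem_inf.2 ⟨cz_le_TT hs, hCL hs⟩) y
  have h1 : ev ψ i (u * w) ≠ 0 := hHT (cz ⊥) hCL i hi.idm hinvC hi.cen ψ hψ u hu
  have hpel : PEl p u := by
    obtain ⟨k, hk⟩ := hRt.dfa.pgrp ⟨u, hu⟩
    refine ⟨k, ?_⟩
    have := congrArg (Subtype.val) hk
    simpa using this
  have hcomm : Commute u w := by
    have h := hwC
    rw [Subgroup.mem_centralizer_iff] at h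
    exact h u hu
  have hjL : Idm M (cz (⊥ : Subgroup G)) j :=
    ⟨fun y hy => hj1.sup y (fun h => hy (mem_Cz.1 h).1), hj1.int, hj1.idem⟩
  have huwC : u * w ∈ cz D := (cz D).mul_mem (hDC hu) hwC
  have h2 : ev ψ i (u * w) = ev ψ j (u * w) :=
    hRR1 p M hS G (cz ⊥) u (hDL hu) w (hCL hwC) hpel hwr hcomm i j hi.idm hjL
      (fun x => hinvC (u * w) huwC x) (fun x => hj2 (u * w) huwC x) hj5 ψ hψ.1
  by_contra hcon
  push Not at hcon
  apply h1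
  rw [h2]
  have h3 : ev ψ j (u * w) = ev (fun g => ψ (u * g)) j w := by
    unfold ev
    refine finsum_congr fun y => ?_
    simp only [mul_assoc]
  have h4 : ev (fun g => ψ (u * g)) j w = ev (fun _ => (0 : ℂ)) j w := by
    refine hTRW p M hS G (Cz (cz ⊥) u) j hj1 w (hCK hwC) hwr (fun x => hj2 w hwC x) _ _ ?_ ?_ ?_
    · intro s hs y
      have hs2 : u * s = s * u := (mem_Cz.1 hs).2
      have h5 : u * (s * y * s⁻¹) = s * (u * y) * s⁻¹ := by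
        calc u * (s * y * s⁻¹) = (u * s) * y * s⁻¹ := by group
          _ = (s * u) * y * s⁻¹ := by rw [hs2]
          _ = s * (u * y) * s⁻¹ := by group
      change ψ (u * (s * y * s⁻¹)) = ψ (u * y)
      rw [h5]
      exact IrrOn_conj hψ.1 (mem_Cz.1 hs).1 _
    · intro s _ y
      rfl
    · intro v hv hvr
      have hs2 := (mem_Cz.1 hv).2
      exact hcon v hvr hs2
  rw [h3, h4]
  unfold ev
  simp

end Pool.Agent.L5
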